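import Pool.Agent.Run7.h918.SP.Count
import Pool.Agent.Run7.h918.SP.Quad

/-!
# The number of subsets of `F_p^n` without three-term progressions, by size

Let `p ≥ 3` be a prime, `N = p^n`, and let `λ = λ_{3,p} = p^α` be the growth rate of the largest
subsets of `F_p^n` without three-term progressions.  For fixed `0 < x < 1` let `m` be the integer
part of `N^φ`, `φ = x + α (1 - 2 x)` if `x ≤ 1/2` and `φ = 1 - x` if `x ≥ 1/2`.  Then there are
`N^((x + o(1)) m)` sets of size `m` without three-term progressions.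

In other words: there are `N^((1 - y + o(1)) m)` progression-free sets of size `m = N^y` for
`0 < y ≤ 1/2`, a proportion `N^(-o(m))` of all sets, and `N^(((α - y) / (2 α - 1) + o(1)) m)` for
`1/2 ≤ y < α`; at `y = 1/2` there is a phase transition.

Upper bound: containers, with the supersaturation of helper125.  Lower bound: progression-free
sets in random sets.
-/

set_option autoImplicit false

namespace Pool.Agent.Results.MP_b30443_co.NumberBySize

open Finset Filter Topology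
open Pool.Agent.H523R2.AP (APFree)

open Classical in
/-- the number of subsets of `F_p^n` with `m` elements and without nontrivial three-term
progressions -/
noncomputable def num (p n m : ℕ) [Fact p.Prime] : ℕ :=
  ((univ : Finset (Finset (Fin n → ZMod p))).filter fun A => APFree 3 A ∧ A.card = m).card

/-- **Theorem.** Let `p ≥ 3` be a prime and let `L = p^α` be the growth rate of the largest
subsets of `F_p^n` without three-term progressions; then `2/3 ≤ α ≤ 1`.

(1) For `1/2 ≤ y < α` and `ε > 0`, for all large `n` and `m = ⌊p^(y n)⌋`, the number of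
progression-free sets of size `m` is between `p^(n m (κ - ε))` and `p^(n m (κ + ε))`, where
`κ = (α - y) / (2 α - 1)`.  (2) The same for `0 < y ≤ 1/2` with `κ = 1 - y`. -/
theorem result (p : ℕ) [Fact p.Prime] (hp : 3 ≤ p) :
    ∃ L α : ℝ, Tendsto (fun n : ℕ => (NotAttained.r 3 p n : ℝ) ^ (1 / (n : ℝ))) atTop (𝓝 L) ∧
      L = (p : ℝ) ^ α ∧ 2 / 3 ≤ α ∧ α ≤ 1 ∧
      (∀ y : ℝ, 1 / 2 ≤ y → y < α → ∀ ε : ℝ, 0 < ε → ∀ᶠ n : ℕ in atTop,
        (p : ℝ) ^ (((α - y) / (2 * α - 1) - ε) * (n * ⌊(p : ℝ) ^ (y * n)⌋₊)) ≤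
          num p n ⌊(p : ℝ) ^ (y * n)⌋₊ ∧
        (num p n ⌊(p : ℝ) ^ (y * n)⌋₊ : ℝ) ≤
          (p : ℝ) ^ (((α - y) / (2 * α - 1) + ε) * (n * ⌊(p : ℝ) ^ (y * n)⌋₊))) ∧
      (∀ y : ℝ, 0 < y → y ≤ 1 / 2 → ∀ ε : ℝ, 0 < ε → ∀ᶠ n : ℕ in atTop,
        (p : ℝ) ^ ((1 - y - ε) * (n * ⌊(p : ℝ) ^ (y * n)⌋₊)) ≤
          num p n ⌊(p : ℝ) ^ (y * n)⌋₊ ∧
        (num p n ⌊(p : ℝ) ^ (y * n)⌋₊ : ℝ) ≤
          (p : ℝ) ^ ((1 - y + ε) * (n * ⌊(p : ℝ) ^ (y * n)⌋₊))) := by
  have hp1 : (1 : ℝ) < p := by exact_mod_cast (Fact.out : p.Prime).one_lt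
  have hw := Pool.Agent.Run7.h918.SP.Ap.w_inj (p := p) hp
  obtain ⟨L, α, γ, hg⟩ := Pool.Agent.Run7.h918.SP.growth (p := p) hw
  have hγ : γ = 1 := Pool.Agent.Run7.h918.SP.Ap.gamma hg
  subst hγ
  have h23 := Pool.Agent.Run7.h918.SP.Ap.two_thirds hp hg
  have hα2 := hg.le_γ
  have hnum : ∀ n m : ℕ, num p n m =
      Pool.Agent.Run7.h918.SP.cnt p (Pool.Agent.Run7.h918.SP.Ap.w p) n m := by
    intro n m
    unfold num Pool.Agent.Run7.h918.SP.cnt
    congr 1
    ext A
    simp only [mem_filter, mem_univ, true_and, Pool.Agent.Run7.h918.SP.Ap.free_iff]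
  simp_rw [hnum]
  refine ⟨L, α, ?_, hg.hL, h23, hα2, ?_, ?_⟩
  · simpa only [Pool.Agent.Run7.h918.SP.Ap.r_eq] using hg.lim
  · intro y hy1 hy2 ε hε
    have hd : 0 < 2 * α - 1 := by linarith
    obtain ⟨x, hx⟩ : ∃ x : ℝ, x = (α - y) / (2 * α - 1) := ⟨_, rfl⟩
    have hx0 : 0 < x := by rw [hx]; exact div_pos (by linarith) hd
    have hx1 : x ≤ 1 / 2 := by rw [hx, div_le_iff₀ hd]; linarith
    have hxy : x * (2 * α - 1) = α - y := by rw [hx, div_mul_cancel₀ _ hd.ne']
    rw [← hx]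
    exact Pool.Agent.Run7.h918.SP.count hw hg (by linarith) hx0 (φ := y)
      (by rw [max_eq_right (by linarith)]; linarith) (by linarith) hε
  · intro y hy1 hy2 ε hε
    exact Pool.Agent.Run7.h918.SP.count hw hg (by linarith) (x := 1 - y) (by linarith) (φ := y)
      (by rw [max_eq_left (by linarith)]; ring) hy1 hε

end Pool.Agent.Results.MP_b30443_co.NumberBySize
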