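import Pool.Agent.Run7.h918.SP.Ap

/-!
# Three-term progressions in random subsets of `F_p^n`: the exact exponent

Let `p ≥ 3` be a prime and let `λ = λ_{3,p} = p^α` be the growth rate of the largest subsets of
`F_p^n` without three-term progressions.  Let `R` be a random subset of `F_p^n` which contains each
point independently with probability `p^(-x n)`.  With probability tending to one the largest
subset of `R` without three-term progressions has `p^((φ(x) + o(1)) n)` elements, where
`φ(x) = x + α (1 - 2 x)` for `0 ≤ x ≤ 1/2` and `φ(x) = 1 - x` for `1/2 ≤ x < 1`.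

In particular, for each fixed density `p^(-x n)`, `0 ≤ x < 1/2`, the exponent of the sparse random
problem determines `λ_{3,p}`: the bound `λ_{3,p} ≤ p^a` is equivalent to the bound
`p^((x + a (1 - 2 x) + o(1)) n)` for the subsets without progressions of `R`.

Upper bound: containers. A set of density `δ` has at least `δ^(1 + 1/(1 - α)) p^(2n)` progressions
(helper125), and the sets without progressions are decided, level by level, by few of their
elements (one phase of the decision tree: `SP/Tree.lean`); all the levels cost less than the last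
one as `α ≥ 1/2`.  Lower bound: the preimage of an extremal set of `F_p^m`, `m = (1 - 2 x) n`, has
only the progressions inside the fibres, and few of them remain in `R`.
-/

set_option autoImplicit false

namespace Pool.Agent.Results.MP_b30443_co.RandomSubsets

open Finset Filter Topology
open Pool.Agent.H523R2.AP (APFree)
open Pool.Agent.Run7.h918.SP (Pr)

/-- the exponent: `x + α (1 - 2 x)` for `x ≤ 1/2` and `1 - x` for `x > 1/2` -/
noncomputable def phi (α x : ℝ) : ℝ := if x ≤ 1 / 2 then x + α * (1 - 2 * x) else 1 - x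

open Classical in
/-- **Theorem.** Let `p ≥ 3` be a prime, and let `L = p^α` be the growth rate of the largest
subsets of `F_p^n` without three-term progressions.  `Pr q E` is the probability of the event `E`
for the random subset of `F_p^n` of density `q`.  The largest subset without progressions of the
random set of density `p^(-x n)` has `p^((phi α x + o(1)) n)` elements with probability `1 - o(1)`;
an upper bound of this kind for one `x < 1/2` is equivalent to an upper bound for `L`. -/
theorem result (p : ℕ) [Fact p.Prime] (hp : 3 ≤ p) :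
    ∃ L α : ℝ, Tendsto (fun n : ℕ => (NotAttained.r 3 p n : ℝ) ^ (1 / (n : ℝ))) atTop (𝓝 L) ∧
      L = (p : ℝ) ^ α ∧ 1 / 2 ≤ α ∧ α ≤ 1 ∧
      (∀ x : ℝ, 0 ≤ x → x < 1 → ∀ ε : ℝ, 0 < ε →
        Tendsto (fun n : ℕ => Pr (V := Fin n → ZMod p) ((p : ℝ) ^ (-(x * n))) fun R =>
          (∃ A ⊆ R, APFree 3 A ∧ (p : ℝ) ^ ((phi α x - ε) * n) ≤ (A.card : ℝ)) ∧
          ∀ A ⊆ R, APFree 3 A → (A.card : ℝ) ≤ (p : ℝ) ^ ((phi α x + ε) * n)) atTop (𝓝 1)) ∧
      ∀ x : ℝ, 0 ≤ x → x < 1 / 2 → ∀ a : ℝ,
        ((∀ ε : ℝ, 0 < ε →
          Tendsto (fun n : ℕ => Pr (V := Fin n → ZMod p) ((p : ℝ) ^ (-(x * n))) fun R =>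
            ∀ A ⊆ R, APFree 3 A → (A.card : ℝ) ≤ (p : ℝ) ^ ((x + a * (1 - 2 * x) + ε) * n))
              atTop (𝓝 1)) ↔
        L ≤ (p : ℝ) ^ a) := by
  have hp1 : (1 : ℝ) < p := by exact_mod_cast (Fact.out : p.Prime).one_lt
  have hw := Pool.Agent.Run7.h918.SP.Ap.w_inj (p := p) hp
  obtain ⟨L, α, γ, hg⟩ := Pool.Agent.Run7.h918.SP.growth (p := p) hw
  have hγ : γ = 1 := Pool.Agent.Run7.h918.SP.Ap.gamma hg
  subst hγ
  have hα1 := hg.half
  have hα2 := hg.le_γ
  have hphi : ∀ x : ℝ, phi α x = 1 - x - (1 - α) * max 0 (1 - 2 * x) := by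
    intro x
    unfold phi
    split_ifs with h
    · rw [max_eq_right (by linarith)]; ring
    · push Not at h
      rw [max_eq_left (by linarith)]; ring
  have hpos : ∀ x : ℝ, x < 1 → 0 < phi α x := by
    intro x hx
    unfold phi
    split_ifs with h
    · nlinarith
    · linarith
  refine ⟨L, α, ?_, hg.hL, by linarith, hα2, ?_, ?_⟩
  · simpa only [Pool.Agent.Run7.h918.SP.Ap.r_eq] using hg.lim
  · intro x hx hx1 ε hε
    have h := Pool.Agent.Run7.h918.SP.both hw hg hx (hphi x) (hpos x hx1) hε
    simpa only [Pool.Agent.Run7.h918.SP.Ap.free_iff] using h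
  · intro x hx hx1 a
    have h := Pool.Agent.Run7.h918.SP.equiv hw hg hx (hphi x) (hpos x (by linarith))
      (x + a * (1 - 2 * x))
    simp only [Pool.Agent.Run7.h918.SP.Ap.free_iff] at h
    rw [h, hg.hL, Real.rpow_le_rpow_left_iff hp1]
    unfold phi
    rw [if_pos hx1.le]
    constructor
    · intro h2
      have h3 : α * (1 - 2 * x) ≤ a * (1 - 2 * x) := by linarith
      exact le_of_mul_le_mul_right h3 (by linarith)
    · intro h2
      have := mul_le_mul_of_nonneg_right h2 (show 0 ≤ 1 - 2 * x by linarith)
      linarith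

end Pool.Agent.Results.MP_b30443_co.RandomSubsets
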