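import Pool.Agent.Run7.h125.Sat.Limit
import Pool.Agent.Results.MP_b30443_co.NotAttained

/-!
# Progression-free sets in `F_p^n`: the growth rate is a sharp supersaturation exponent

Let `r k p n` be the largest size of a subset of `F_p^n` without nontrivial `k`-term progressions
and let `L = λ_{k,p}` be the limit of `r k p n ^ (1/n)`.

For every `c > 0` the bound `L ≤ p^(1-c)` is equivalent to: every `A ⊆ F_p^n` of density `α`
contains at least `α^(1+1/c) p^(2n)` progressions `x, x + y, …, x + (k-1) y`.  A constant factor in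
this statement is irrelevant.  So `λ_{k,p} = p^(1-c)` where `1 + 1/c` is the exact exponent in the
supersaturation: if `L < p`, then `K = 1 + 1/(1 - log_p L)` is the smallest exponent for which the
progressions in sets of density `α` are at least a constant times `α^K p^(2n)`, and the constant
can be taken to be one; if `L = p` there is no such exponent.

Proof.  Let `t` be the number of the nontrivial progressions in `A ⊆ F_p^(n+m)`.  The restriction
to a suitable coset of a hyperplane divides the size by `p` and `t` by `p^2`; after `m` such steps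
one point of every remaining progression is removed.  This gives
`p^m |A| ≤ t + p^(2m) r(n)`, and this is applied to the powers of `A`, with `p^m` of the order of
`(t / |A|)^N`.
-/

namespace Pool.Agent.Results.MP_b30443_co.SharpSupersaturation

open Finset Filter Topology Run7.h125.Sat
open Pool.Agent.H523R2.AP (APFree)

/-- The number of pairs `(x, y)`, `y = 0` included, such that `x, x + y, …, x + (k-1) y` are all
in `A`. -/
def progs (k : ℕ) {p n : ℕ} [NeZero p] (A : Finset (Fin n → ZMod p)) : ℕ :=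
  (univ.filter fun q : (Fin n → ZMod p) × (Fin n → ZMod p) => ∀ j < k, q.1 + j • q.2 ∈ A).card

/-- The power-saving bound with saving `c`, for all sets without `k`-term progressions. -/
def Saving (k p : ℕ) (c : ℝ) : Prop :=
  ∃ C : ℝ, ∀ n : ℕ, 1 ≤ n → ∀ A : Finset (Fin n → ZMod p), APFree k A →
    (A.card : ℝ) ≤ C * (p : ℝ) ^ ((1 - c) * n)

/-- The power-saving bound with saving `c`, with constant one, and strict. -/
def StrictSaving (k p : ℕ) (c : ℝ) : Prop :=
  ∀ n : ℕ, 1 ≤ n → ∀ A : Finset (Fin n → ZMod p), APFree k A →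
    (A.card : ℝ) < (p : ℝ) ^ ((1 - c) * n)

/-- Every set of density `α` has at least `α^K p^(2n)` progressions (the trivial ones are
counted). -/
def Supersaturation (k p : ℕ) [NeZero p] (K : ℝ) : Prop :=
  ∀ n : ℕ, ∀ A : Finset (Fin n → ZMod p),
    ((A.card : ℝ) / (p : ℝ) ^ n) ^ K * ((p : ℝ) ^ n) ^ 2 ≤ (progs k A : ℝ)

/-- The same up to a constant factor. -/
def WeakSupersaturation (k p : ℕ) [NeZero p] (K : ℝ) : Prop :=
  ∃ κ : ℝ, 0 < κ ∧ ∀ n : ℕ, 1 ≤ n → ∀ A : Finset (Fin n → ZMod p),
    κ * (((A.card : ℝ) / (p : ℝ) ^ n) ^ K * ((p : ℝ) ^ n) ^ 2) ≤ (progs k A : ℝ)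

/-- the configuration -/
def w (k p : ℕ) : Fin k → ZMod p := fun j => ((j : ℕ) : ZMod p)

variable {k p : ℕ} [hp : Fact p.Prime]

lemma pt_eq {n : ℕ} (x y : Fin n → ZMod p) (j : Fin k) :
    pt (w k p) x y j = x + (j : ℕ) • y := by
  funext i
  simp [pt_apply, w, mul_comm]

lemma all_iff {n : ℕ} (A : Finset (Fin n → ZMod p)) (x y : Fin n → ZMod p) :
    (∀ j, pt (w k p) x y j ∈ A) ↔ ∀ j < k, x + j • y ∈ A := by
  constructor
  · intro h j hj
    have := h ⟨j, hj⟩
    rwa [pt_eq] at this
  · intro h j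
    rw [pt_eq]
    exact h j j.2

lemma free_iff {n : ℕ} (A : Finset (Fin n → ZMod p)) :
    Free (p := p) (w k p) A ↔ APFree k A := by
  constructor
  · intro h x y hy hh
    exact hy (h x y ((all_iff A x y).2 hh))
  · intro h x y hh
    by_contra hy
    exact h x y hy ((all_iff A x y).1 hh)

lemma progs_eq {n : ℕ} (A : Finset (Fin n → ZMod p)) :
    progs k A = (cop (p := p) (w k p) A).card := by
  rw [progs]
  congr 1
  ext q
  rw [mem_filter, mem_cop, all_iff]
  simp

lemma r_eq (n : ℕ) : NotAttained.r k p n = Run7.h125.Sat.r p (w k p) n := by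
  rw [NotAttained.r, Run7.h125.Sat.r]
  simp_rw [free_iff]

lemma base (c : ℝ) : (Fintype.card (ZMod p) : ℝ) * (p : ℝ) ^ (-c) = (p : ℝ) ^ (1 - c) := by
  have hp0 : (0 : ℝ) < p := by exact_mod_cast hp.out.pos
  rw [ZMod.card, sub_eq_add_neg, Real.rpow_add hp0, Real.rpow_one]

lemma base_pow (c : ℝ) (n : ℕ) : ((p : ℝ) ^ (1 - c)) ^ n = (p : ℝ) ^ ((1 - c) * n) := by
  rw [← Real.rpow_natCast, ← Real.rpow_mul (Nat.cast_nonneg p)]

/-- **Theorem.** Let `p ≥ k ≥ 3`, `p` prime, and let `L = λ_{k,p}` be the growth rate of the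
largest subsets of `F_p^n` without `k`-term progressions.  For every `c > 0` the following are
equivalent: the power-saving bound with saving `c`, with some constant; the same with constant one
and strict; `L ≤ p^(1-c)`; every `A ⊆ F_p^n` of density `α` has at least `α^(1+1/c) p^(2n)`
`k`-term progressions; the same up to a constant factor.  In particular `L < p` is equivalent to
polynomial supersaturation, and then the exact exponent is `1 + 1/(1 - log_p L)`. -/
theorem result (k p : ℕ) [Fact p.Prime] (hk : 3 ≤ k) (hkp : k ≤ p) :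
    ∃ L : ℝ, Tendsto (fun n : ℕ => (NotAttained.r k p n : ℝ) ^ (1 / (n : ℝ))) atTop (𝓝 L) ∧
      L ≤ p ∧
      (∀ c : ℝ, 0 < c → List.TFAE [Saving k p c, StrictSaving k p c, L ≤ (p : ℝ) ^ (1 - c),
        Supersaturation k p (1 + 1 / c), WeakSupersaturation k p (1 + 1 / c)]) ∧
      (∀ K : ℝ, 1 < K → (WeakSupersaturation k p K ↔
        L < p ∧ 1 + 1 / (1 - Real.logb p L) ≤ K)) := by
  have hp0 : (0 : ℝ) < p := by exact_mod_cast (Fact.out : p.Prime).pos
  have hp1 : (1 : ℝ) < p := by exact_mod_cast (Fact.out : p.Prime).one_lt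
  have : Nonempty (Fin k) := ⟨⟨0, by omega⟩⟩
  have hv : w k p ⟨0, by omega⟩ ≠ w k p ⟨1, by omega⟩ := by
    simp [w]
  obtain ⟨L, hL0, hlim, hle⟩ := limit (p := p) (w k p) hv
  have hlim' : Tendsto (fun n : ℕ => (NotAttained.r k p n : ℝ) ^ (1 / (n : ℝ))) atTop (𝓝 L) := by
    simpa only [r_eq] using hlim
  have hstrict : ∀ n : ℕ, 1 ≤ n → (NotAttained.r k p n : ℝ) < L ^ n := by
    obtain ⟨_, L', hL', h⟩ := NotAttained.result k p hk hkp
    have : L' = L := tendsto_nhds_unique hL' hlim'
    rwa [this] at h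
  have hup : ∀ R : ℝ, 0 < R → (∀ n : ℕ, (r p (w k p) n : ℝ) ≤ R ^ n) → L ≤ R := by
    intro R hR h
    refine le_of_tendsto hlim ?_
    filter_upwards [eventually_ge_atTop 1] with n hn
    have hn' : (0 : ℝ) < n := by exact_mod_cast hn
    calc (r p (w k p) n : ℝ) ^ (1 / (n : ℝ)) ≤ (R ^ n) ^ (1 / (n : ℝ)) :=
          Real.rpow_le_rpow (Nat.cast_nonneg _) (h n) (by positivity)
      _ = R := by
          rw [← Real.rpow_natCast, ← Real.rpow_mul hR.le, mul_one_div_cancel hn'.ne',
            Real.rpow_one]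
  have hLp : L ≤ p := by
    apply hup p hp0
    intro n
    have h1 : (r p (w k p) n : ℝ) ≤ (Fintype.card (ZMod p) : ℝ) ^ n := by
      exact_mod_cast r_le_pow (p := p) (w k p) n
    rwa [ZMod.card] at h1
  have hclean : ∀ c : ℝ, (∀ n : ℕ, (r p (w k p) n : ℝ) ≤
      ((Fintype.card (ZMod p) : ℝ) * (p : ℝ) ^ (-c)) ^ n) ↔ L ≤ (p : ℝ) ^ (1 - c) := by
    intro c
    constructor
    · intro h
      rw [← base]
      refine hup _ ?_ h
      rw [base]; positivity
    · intro h n
      rw [base]
      exact (hle n).trans (pow_le_pow_left₀ hL0.le h n)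
  have hler : ∀ (n : ℕ) (A : Finset (Fin n → ZMod p)), APFree k A →
      (A.card : ℝ) ≤ (r p (w k p) n : ℝ) := by
    intro n A hA
    exact_mod_cast le_r (w k p) ((free_iff A).2 hA)
  have htfae : ∀ c : ℝ, 0 < c → List.TFAE [Saving k p c, StrictSaving k p c,
      L ≤ (p : ℝ) ^ (1 - c), Supersaturation k p (1 + 1 / c),
      WeakSupersaturation k p (1 + 1 / c)] := by
    intro c hc
    tfae_have 1 → 3 := by
      rintro ⟨C, hC⟩
      rw [← hclean]
      intro n
      rcases Nat.eq_zero_or_pos n with rfl | hn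
      · have := r_le_pow (p := p) (w k p) 0
        simp only [pow_zero] at this ⊢
        exact_mod_cast this
      refine r_le_of_const (w k p) _ C (by rw [base]; positivity) ?_ n hn
      intro n hn
      obtain ⟨A, hA, hcard⟩ := exists_r (p := p) (w k p) n
      rw [← hcard, base, base_pow]
      exact hC n hn A ((free_iff A).1 hA)
    tfae_have 3 → 2 := by
      intro h n hn A hA
      calc (A.card : ℝ) ≤ (r p (w k p) n : ℝ) := hler n A hA
        _ = (NotAttained.r k p n : ℝ) := by rw [r_eq]
        _ < L ^ n := hstrict n hn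
        _ ≤ ((p : ℝ) ^ (1 - c)) ^ n := pow_le_pow_left₀ hL0.le h n
        _ = _ := base_pow c n
    tfae_have 2 → 1 := fun h => ⟨1, fun n hn A hA => by rw [one_mul]; exact (h n hn A hA).le⟩
    tfae_have 3 → 4 := by
      intro h n A
      have h1 := supersat' (p := p) (w k p) c hc ((hclean c).2 h) A
      rw [← progs_eq, ZMod.card] at h1
      refine le_trans (le_of_eq ?_) h1
      rw [mul_pow, sq]
    tfae_have 4 → 5 := fun h => ⟨1, one_pos, fun n _ A => by rw [one_mul]; exact h n A⟩
    tfae_have 5 → 3 := by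
      rintro ⟨κ, hκ, h⟩
      rw [← hclean]
      refine saving_of_supersat (p := p) (w k p) c κ hc hκ ?_
      intro n hn A
      have h1 := h n hn A
      rw [← progs_eq, ZMod.card]
      refine le_trans (le_of_eq ?_) h1
      rw [mul_pow, sq]
    tfae_finish
  refine ⟨L, hlim', hLp, htfae, ?_⟩
  intro K hK
  have hK0 : 0 < K - 1 := by linarith
  set c : ℝ := 1 / (K - 1) with hc
  have hc0 : 0 < c := by positivity
  have hKc : K = 1 + 1 / c := by rw [hc, one_div_one_div]; ring
  have h1 : WeakSupersaturation k p K ↔ L ≤ (p : ℝ) ^ (1 - c) := by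
    rw [hKc]
    exact (htfae c hc0).out 4 2
  rw [h1, ← Real.logb_le_iff_le_rpow hp1 hL0]
  constructor
  · intro h
    have h2 : Real.logb p L < 1 := by linarith
    have h3 : L < p := by
      rwa [Real.logb_lt_iff_lt_rpow hp1 hL0, Real.rpow_one] at h2
    refine ⟨h3, ?_⟩
    rw [hKc]
    have h4 : c ≤ 1 - Real.logb p L := by linarith
    have := one_div_le_one_div_of_le hc0 h4
    linarith
  · rintro ⟨h3, h4⟩
    have h2 : Real.logb p L < 1 := by
      rwa [Real.logb_lt_iff_lt_rpow hp1 hL0, Real.rpow_one]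
    rw [hKc] at h4
    have h5 : 1 / (1 - Real.logb p L) ≤ 1 / c := by linarith
    have h6 := (one_div_le_one_div (by linarith) hc0).1 h5
    linarith

end Pool.Agent.Results.MP_b30443_co.SharpSupersaturation
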