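import Pool.Agent.Run7.h945.AG.Energy

/-!
The exponential growth rate of `r_k(F_p^n)` is the growth exponent of the sumsets of the sets
without `k`-term progressions.
-/

set_option autoImplicit false

namespace Pool.Agent.Results.MP_b30443_co.SumsetGrowth

open Finset Filter Topology Pool.Agent.H523R2.AP
open Pool.Agent.Results.MP_b30443_co.NotAttained (r le_r bdd exists_r one_le_r)
open Pool.Agent.Run7.h945.AG
open scoped Pointwise

variable {k p : ℕ} [hp : Fact p.Prime]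

lemma r_le_pow (hk : 3 ≤ k) (n : ℕ) : r k p n ≤ p ^ n := by
  obtain ⟨A, _, hA⟩ := exists_r (k := k) (p := p) (by omega) n
  rw [← hA]
  have := card_le_univ A
  rwa [Fintype.card_fun, Fintype.card_fin, ZMod.card] at this

/-- a bound for the limit -/
lemma limit_le (hk : 3 ≤ k) {L : ℝ}
    (hL : Tendsto (fun n : ℕ => (r k p n : ℝ) ^ (1 / (n : ℝ))) atTop (𝓝 L)) {C y : ℝ} (hy : 0 < y)
    (h : ∀ n : ℕ, (r k p n : ℝ) ≤ C * y ^ n) : L ≤ y := by
  have hC : 0 < C := by
    have h1 := h 0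
    rw [pow_zero, mul_one] at h1
    have h2 : (1 : ℝ) ≤ r k p 0 := by exact_mod_cast one_le_r (by omega) 0
    linarith
  have h1 : Tendsto (fun n : ℕ => C ^ (1 / (n : ℝ)) * y) atTop (𝓝 (C ^ (0 : ℝ) * y)) := by
    refine Tendsto.mul_const y ?_
    exact ((Real.continuousAt_const_rpow hC.ne').tendsto.comp tendsto_one_div_atTop_nhds_zero_nat)
  rw [Real.rpow_zero, one_mul] at h1
  refine le_of_tendsto_of_tendsto hL h1 ?_
  filter_upwards [eventually_ge_atTop 1] with n hn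
  have hn' : (n : ℝ) ≠ 0 := by positivity
  calc (r k p n : ℝ) ^ (1 / (n : ℝ)) ≤ (C * y ^ n) ^ (1 / (n : ℝ)) :=
        Real.rpow_le_rpow (by positivity) (h n) (by positivity)
    _ = C ^ (1 / (n : ℝ)) * y := by
        rw [Real.mul_rpow hC.le (by positivity), ← Real.rpow_natCast, ← Real.rpow_mul hy.le]
        congr 1
        rw [mul_one_div_cancel hn', Real.rpow_one]

/-- every set of size at most `p ^ n` -/
lemma le_univ {n : ℕ} (B : Finset (Fin n → ZMod p)) : (B.card : ℝ) ≤ (p : ℝ) ^ n := by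
  have h := card_le_univ B
  rw [Fintype.card_fun, Fintype.card_fin, ZMod.card] at h
  exact_mod_cast h

/-- a power of the number of the elements of any set attached to `A` gives a bound for the limit -/
lemma exponent_le (hk : 3 ≤ k) {θ : ℝ}
    (hL : Tendsto (fun n : ℕ => (r k p n : ℝ) ^ (1 / (n : ℝ))) atTop (𝓝 ((p : ℝ) ^ θ)))
    (F : ∀ n : ℕ, Finset (Fin n → ZMod p) → Finset (Fin n → ZMod p)) {t C : ℝ} (ht : 0 ≤ t)
    (h : ∀ (n : ℕ) (A : Finset (Fin n → ZMod p)), APFree k A →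
      (A.card : ℝ) ≤ C * ((F n A).card : ℝ) ^ t) : θ ≤ t := by
  have hp1 : (1 : ℝ) < p := by exact_mod_cast hp.out.one_lt
  have hC : 0 ≤ C := by
    obtain ⟨A, hA, hA'⟩ := exists_r (k := k) (p := p) (by omega) 0
    have h1 := h 0 A hA
    have h2 : (1 : ℝ) ≤ A.card := by rw [hA']; exact_mod_cast one_le_r (by omega) 0
    by_contra hC
    push Not at hC
    have h3 : C * ((F 0 A).card : ℝ) ^ t ≤ 0 := mul_nonpos_of_nonpos_of_nonneg hC.le (by positivity)
    linarith
  have h1 : (p : ℝ) ^ θ ≤ (p : ℝ) ^ t := by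
    refine limit_le hk hL (C := C) (by positivity) fun n => ?_
    obtain ⟨A, hA, hA'⟩ := exists_r (k := k) (p := p) (by omega) n
    rw [← hA']
    refine (h n A hA).trans (mul_le_mul_of_nonneg_left ?_ hC)
    calc ((F n A).card : ℝ) ^ t ≤ ((p : ℝ) ^ n) ^ t :=
          Real.rpow_le_rpow (by positivity) (le_univ _) ht
      _ = ((p : ℝ) ^ t) ^ n := by
          rw [← Real.rpow_natCast, ← Real.rpow_natCast, ← Real.rpow_mul (by positivity),
            ← Real.rpow_mul (by positivity), mul_comm]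
  exact (Real.rpow_le_rpow_left_iff hp1).1 h1

/-- **The growth rate as the exponent of the sumsets.** -/
theorem result (k p : ℕ) [Fact p.Prime] (hk : 3 ≤ k) (hkp : k ≤ p) :
    ∃ θ : ℝ, 0 < θ ∧ θ ≤ 1 ∧
      Tendsto (fun n : ℕ => (r k p n : ℝ) ^ (1 / (n : ℝ))) atTop (𝓝 ((p : ℝ) ^ θ)) ∧
      -- the bounds
      (∀ (n : ℕ) (A : Finset (Fin n → ZMod p)), APFree k A →
        (A.card : ℝ) ≤ ((A + A).card : ℝ) ^ θ ∧
        (A.card : ℝ) ≤ ((A - A.image fun x => x + x).card : ℝ) ^ θ ∧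
        (A.card : ℝ) ^ (1 + θ) ≤ ((A - A).card : ℝ) ^ (2 * θ) ∧
        ((A.addEnergy A : ℕ) : ℝ) ≤ (A.card : ℝ) ^ (3 - (1 - θ) / 20)) ∧
      -- the exponent `θ` is the least one
      (∀ t C : ℝ, 0 ≤ t →
        (∀ (n : ℕ) (A : Finset (Fin n → ZMod p)), APFree k A →
          (A.card : ℝ) ≤ C * ((A + A).card : ℝ) ^ t) → θ ≤ t) ∧
      (∀ t C : ℝ, 0 ≤ t →
        (∀ (n : ℕ) (A : Finset (Fin n → ZMod p)), APFree k A →
          (A.card : ℝ) ≤ C * ((A - A.image fun x => x + x).card : ℝ) ^ t) → θ ≤ t) ∧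
      (∀ t C : ℝ, 0 ≤ t →
        (∀ (n : ℕ) (A : Finset (Fin n → ZMod p)), APFree k A →
          (A.card : ℝ) ≤ C * ((A - A).card : ℝ) ^ t) → θ ≤ t) ∧
      -- a saving in the energy gives a saving in the exponent
      (∀ κ C : ℝ, 0 ≤ κ →
        (∀ (n : ℕ) (A : Finset (Fin n → ZMod p)), APFree k A →
          ((A.addEnergy A : ℕ) : ℝ) ≤ C * (A.card : ℝ) ^ (3 - κ)) → θ ≤ 1 / (1 + κ)) := by
  have hp1 : (1 : ℝ) < p := by exact_mod_cast (Fact.out : p.Prime).one_lt
  have hp0 : (0 : ℝ) < p := by linarith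
  obtain ⟨-, L, hL, hlt⟩ := NotAttained.result k p hk hkp
  have hL1 : 1 < L := by
    have h1 := hlt 1 le_rfl
    rw [pow_one] at h1
    have h2 : (1 : ℝ) ≤ r k p 1 := by exact_mod_cast one_le_r (by omega) 1
    linarith
  have hLp : L ≤ p := by
    refine limit_le hk hL (C := 1) hp0 fun n => ?_
    rw [one_mul]
    exact_mod_cast r_le_pow hk n
  have hθL : (p : ℝ) ^ Real.logb p L = L := Real.rpow_logb hp0 hp1.ne' (by linarith)
  set θ := Real.logb p L with hθ
  have hθ0 : 0 < θ := Real.logb_pos hp1 hL1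
  have hθ1 : θ ≤ 1 := by
    rw [← Real.rpow_le_rpow_left_iff hp1, hθL, Real.rpow_one]
    exact hLp
  rw [← hθL] at hL
  have H : ∀ m : ℕ, (r k p m : ℝ) ≤ ((p : ℝ) ^ θ) ^ m := by
    intro m
    rw [hθL]
    rcases Nat.eq_zero_or_pos m with rfl | hm
    · have := r_le_pow (p := p) hk 0
      rw [pow_zero] at this ⊢
      exact_mod_cast this
    · exact (hlt m hm).le
  have hp3 : 3 ≤ p := hk.trans hkp
  refine ⟨θ, hθ0, hθ1, hL, fun n A hA => ⟨card_le_add hk hp3 hθ0.le H hA,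
    card_le_sub hk hp3 hθ0.le H hA, card_le_diff hk hp3 hθ0.le H hA,
    energy_le hk hp3 hθ0.le hθ1 H hA⟩,
    fun t C ht h => exponent_le hk hL (fun _ A => A + A) ht h,
    fun t C ht h => exponent_le hk hL (fun _ A => A - A.image fun x => x + x) ht h,
    fun t C ht h => exponent_le hk hL (fun _ A => A - A) ht h, ?_⟩
  intro κ C hκ h
  have hC : 0 < C := by
    obtain ⟨A, hA, hA'⟩ := exists_r (k := k) (p := p) (by omega) 0
    have h1 := h 0 A hA
    have h2 : 1 ≤ A.card := by rw [hA']; exact one_le_r (by omega) 0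
    have h2' : A.Nonempty := card_pos.1 h2
    have h3 : (0 : ℝ) < (A.addEnergy A : ℕ) := by exact_mod_cast addEnergy_pos h2' h2'
    by_contra hC
    push Not at hC
    have h4 : C * (A.card : ℝ) ^ (3 - κ) ≤ 0 := mul_nonpos_of_nonpos_of_nonneg hC (by positivity)
    linarith
  refine exponent_le hk hL (fun _ A => A + A) (C := C ^ (1 / (1 + κ))) (by positivity) ?_
  intro n A hA
  rcases A.eq_empty_or_nonempty with rfl | hne
  · rw [card_empty, Nat.cast_zero]
    positivity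
  have hA0 : (0 : ℝ) < A.card := by exact_mod_cast hne.card_pos
  have h1 : ((A.card : ℝ) ^ 2) * (A.card : ℝ) ^ 2 ≤ ((A + A).card : ℝ) * (A.addEnergy A : ℕ) := by
    exact_mod_cast le_card_add_mul_addEnergy A A
  have h2 : (A.card : ℝ) ^ (1 + κ) * (A.card : ℝ) ^ (3 - κ) ≤
      (C * ((A + A).card : ℝ)) * (A.card : ℝ) ^ (3 - κ) := by
    calc (A.card : ℝ) ^ (1 + κ) * (A.card : ℝ) ^ (3 - κ) = (A.card : ℝ) ^ (4 : ℝ) := by
          rw [← Real.rpow_add hA0]
          congr 1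
          ring
      _ = ((A.card : ℝ) ^ 2) * (A.card : ℝ) ^ 2 := by
          rw [← pow_add]
          norm_cast
      _ ≤ ((A + A).card : ℝ) * (A.addEnergy A : ℕ) := h1
      _ ≤ ((A + A).card : ℝ) * (C * (A.card : ℝ) ^ (3 - κ)) :=
          mul_le_mul_of_nonneg_left (h n A hA) (by positivity)
      _ = _ := by ring
  have h3 : (A.card : ℝ) ^ (1 + κ) ≤ C * ((A + A).card : ℝ) :=
    le_of_mul_le_mul_right h2 (by positivity)
  have h4 := Real.rpow_le_rpow (by positivity) h3 (show (0 : ℝ) ≤ 1 / (1 + κ) by positivity)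
  rw [← Real.rpow_mul hA0.le, mul_one_div_cancel (by positivity), Real.rpow_one,
    Real.mul_rpow hC.le (by positivity)] at h4
  exact h4

end Pool.Agent.Results.MP_b30443_co.SumsetGrowth
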